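import Pool.Agent.Helper47.ER.Goals
import Pool.Agent.Helper9.EQ.TRZ
import Mathlib

/-!
# Packet TRZ2 of project ER: the trace of `z π`, exact value
-/

set_option autoImplicit false

namespace Pool.Agent.Helper57.ER.TRZ2

open IsLocalRing Pool.Agent.Helper98.EQ Pool.Agent.Helper9.EQ.TRZ

theorem t (hO : S_ORB) (hP : S_PATH) (hI : S_IDR) : Pool.Agent.Helper47.ER.S_TRZ2 := by
  intro p hp R _ _ _ _ hchar hm X _ _ z k hz π hπ hinv
  have hpp : p.Prime := hp.out
  have hp0 : (p : R) ≠ 0 := Nat.cast_ne_zero.2 hpp.ne_zero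
  let Y := {x // z x = x}
  let Qz : Matrix Y Y R := π.submatrix (Subtype.val : Y → X) Subtype.val
  -- step 1
  have h1 : ∀ x y : Y, ∃ c : R, (Qz * Qz) x y = Qz x y + (p : R) * c := by
    intro x y
    obtain ⟨c, hc⟩ := hO p R X z k 0 hz (fun w => π x.1 w * π w y.1) (by
      intro w
      show π x.1 (z w) * π (z w) y.1 = π x.1 w * π w y.1
      have e1 : π x.1 (z w) = π x.1 w := by
        have := hinv x.1 w
        rwa [x.2] at this
      have e2 : π (z w) y.1 = π w y.1 := by
        have := hinv w y.1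
        rwa [y.2] at this
      rw [e1, e2])
    rw [pow_zero, pow_one, zero_add, pow_one] at hc
    have e3 : π x.1 y.1 = ∑ w, π x.1 w * π w y.1 := by
      conv_lhs => rw [← hπ]
      rfl
    have e4 : ∑ w, π x.1 w * π w y.1 =
        ∑ w ∈ Finset.univ.filter (fun w => z w = w), π x.1 w * π w y.1 +
        ∑ w ∈ Finset.univ.filter (fun w => z w ≠ w), π x.1 w * π w y.1 :=
      (Finset.sum_filter_add_sum_filter_not _ _ _).symm
    have e5 : (Qz * Qz) x y = ∑ w ∈ Finset.univ.filter (fun w => z w = w), π x.1 w * π w y.1 := by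
      show ∑ w : Y, π x.1 w.1 * π w.1 y.1 = _
      exact (Finset.sum_subtype _ (by intro w; simp) (fun w => π x.1 w * π w y.1)).symm
    refine ⟨-c, ?_⟩
    show _ = π x.1 y.1 + _
    rw [e3, e4, hc, e5]
    ring
  choose U hU using h1
  have hU' : Qz * Qz = Qz + (p : Matrix Y Y R) * Matrix.of U := by
    have e1 : (p : Matrix Y Y R) * Matrix.of U = (p : R) • Matrix.of U := by
      rw [← nsmul_eq_mul, Nat.cast_smul_eq_nsmul]
    rw [e1]
    ext x y
    exact hU x y
  have hcU : Qz * Matrix.of U = Matrix.of U * Qz := by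
    have e1 : (p : Matrix Y Y R) * Matrix.of U = (p : R) • Matrix.of U := by
      rw [← nsmul_eq_mul, Nat.cast_smul_eq_nsmul]
    rw [e1] at hU'
    have e2 : (p : R) • (Qz * Matrix.of U) = (p : R) • (Matrix.of U * Qz) := by
      rw [← Matrix.mul_smul, ← Matrix.smul_mul]
      have e3 : (p : R) • Matrix.of U = Qz * Qz - Qz := by
        rw [hU', add_sub_cancel_left]
      rw [e3, mul_sub, sub_mul, mul_assoc]
    ext x y
    have e4 := congrFun (congrFun e2 x) y
    exact mul_left_cancel₀ hp0 e4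
  have key : ∑ x, π x (z x) = (((Qz.map (residue R)).rank : ℕ) : R) := by
    rw [← sub_eq_zero]
    have hH : IsHausdorff (maximalIdeal R) R := inferInstance
    refine hH.haus _ fun s => ?_
    rw [SModEq.zero, smul_eq_mul, Ideal.mul_top]
    have hpow : π ^ p ^ s = π := IsIdempotentElem.pow_eq hπ (pow_ne_zero _ hpp.ne_zero)
    obtain ⟨c, hc⟩ := hP p R X z k s hz π hinv
    obtain ⟨c', hc'⟩ := step hI p hpp R hm Y Qz (Matrix.of U) hU' hcU s
    rw [hpow] at hc
    have e : ∑ x, π x (z x) - (((Qz.map (residue R)).rank : ℕ) : R) = (p : R) ^ s * (p * (c + c')) := by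
      rw [hc]
      have hc2 : ((π.submatrix (Subtype.val : {x // z x = x} → X) Subtype.val) ^ p ^ s).trace =
        (((Qz.map (residue R)).rank : ℕ) : R) + (p : R) ^ (s + 1) * c' := hc'
      rw [hc2]
      ring
    rw [e]
    refine Ideal.mul_mem_right _ _ (Ideal.pow_mem_pow ?_ s)
    rw [hm]
    exact Ideal.mem_span_singleton_self _
  exact key

end Pool.Agent.Helper57.ER.TRZ2
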